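import Pool.Agent.TH339.MP.U3
import Pool.Agent.Y770.SC.Rep

/-!
# The Harnack inequality on the edge for several Euler products at once
-/

set_option autoImplicit false

namespace Pool.Agent.N60.EH

open Complex MeasureTheory Finset Filter Topology
open Pool.Agent.TH339.MP
open Pool.Agent.W350.Edge (divSet dimH_divSet)

variable {m : ℕ}

/-- the combination of several systems of coefficients -/
noncomputable def cb (c : Fin m → ℂ) (b : Fin m → PP → ℂ) (x : PP) : ℂ :=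
  ∑ r, c r * b r x

section
variable {b : Fin m → PP → ℂ} {M : Fin m → ℝ}

lemma norm_cb (hb : ∀ r x, ‖b r x‖ ≤ M r / (x.2 + 1 : ℕ)) (c : Fin m → ℂ) (x : PP) :
    ‖cb c b x‖ ≤ (∑ r, ‖c r‖ * M r) / (x.2 + 1 : ℕ) := by
  unfold cb
  refine (norm_sum_le _ _).trans ?_
  rw [Finset.sum_div]
  refine Finset.sum_le_sum fun r _ => ?_
  rw [norm_mul, mul_div_assoc]
  exact mul_le_mul_of_nonneg_left (hb r x) (norm_nonneg _)

lemma FF_cb (hb : ∀ r x, ‖b r x‖ ≤ M r / (x.2 + 1 : ℕ)) (c : Fin m → ℂ) {s : ℂ}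
    (hs : 1 < s.re) : FF (cb c b) s = ∑ r, c r * FF (b r) s := by
  have h1 : ∀ r, Summable fun x => tm (b r) s x := fun r => summable_tm (hb r) hs
  unfold FF
  have h2 : ∀ x, tm (cb c b) s x = ∑ r, c r * tm (b r) s x := by
    intro x
    unfold tm cb
    rw [Finset.sum_mul]
    exact Finset.sum_congr rfl fun r _ => by ring
  rw [tsum_congr h2, Summable.tsum_finsetSum fun r _ => (h1 r).mul_left _]
  exact Finset.sum_congr rfl fun r _ => tsum_mul_left

lemma bl_cb (hb : ∀ r x, ‖b r x‖ ≤ M r / (x.2 + 1 : ℕ)) (c : Fin m → ℂ) {τ : ℝ}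
    (h0 : τ ∉ divSet (ap (cb c b))) (h : ∀ r, τ ∉ divSet (ap (b r))) :
    bl (cb c b) τ = ∑ r, c r * bl (b r) τ := by
  refine tendsto_nhds_unique (radial (norm_cb hb c) h0) ?_
  have h1 : Tendsto (fun n : ℕ => ∑ r, c r *
      FF (b r) (((1 + 1 / ((n : ℝ) + 1) : ℝ) : ℂ) + τ * I)) atTop
      (𝓝 (∑ r, c r * bl (b r) τ)) :=
    tendsto_finsetSum _ fun r _ => (radial (hb r) (h r)).const_mul _
  refine h1.congr fun n => ?_
  refine (FF_cb hb c ?_).symm
  have h3 : (0 : ℝ) < 1 / ((n : ℝ) + 1) := by positivity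
  simp only [Complex.add_re, Complex.ofReal_re, Complex.mul_re, Complex.I_re, Complex.ofReal_im,
    Complex.I_im, mul_zero, mul_one, sub_zero, add_zero]
  linarith

lemma ae_bl_cb (hb : ∀ r x, ‖b r x‖ ≤ M r / (x.2 + 1 : ℕ)) (c : Fin m → ℂ) :
    ∀ᵐ τ : ℝ, bl (cb c b) τ = ∑ r, c r * bl (b r) τ := by
  have h1 : ∀ᵐ τ : ℝ, ∀ r, τ ∉ divSet (ap (b r)) := ae_all_iff.2 fun r => ae_notMem (hb r)
  filter_upwards [h1, ae_notMem (norm_cb hb c)] with τ h2 h3
  exact bl_cb hb c h3 h2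

lemma re_pt {h : ℝ} (hh : 0 < h) (t : ℝ) : 1 < (((1 + h : ℝ) : ℂ) + t * I).re := by
  simp only [Complex.add_re, Complex.ofReal_re, Complex.mul_re, Complex.I_re, Complex.ofReal_im,
    Complex.I_im, mul_zero, mul_one, sub_zero, add_zero]
  linarith

/-- **The joint Harnack inequality.** -/
theorem joint (hb : ∀ r x, ‖b r x‖ ≤ M r / (x.2 + 1 : ℕ)) (c : Fin m → ℂ) {h : ℝ} (hh : 0 < h)
    (hh2 : h ≤ 1 / 2) (t : ℝ) (hc : ∑ r, ‖c r‖ * M r < 1) :
    IntegrableOn (fun u => Real.exp (∑ r, c r * bl (b r) u).re)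
      (Set.Icc (t - h / 2) (t + h / 2)) ∧
    (1 - ∑ r, ‖c r‖ * M r) / 1000 * h *
        Real.exp (∑ r, c r * FF (b r) (((1 + h : ℝ) : ℂ) + t * I)).re ≤
      ∫ u in (t - h / 2)..(t + h / 2), Real.exp (∑ r, c r * bl (b r) u).re ∧
    ∫ u in (t - h / 2)..(t + h / 2), Real.exp (∑ r, c r * bl (b r) u).re ≤
      1000 / (1 - ∑ r, ‖c r‖ * M r) * h *
        Real.exp (∑ r, c r * FF (b r) (((1 + h : ℝ) : ℂ) + t * I)).re := by
  have h1 := edge_harnack (norm_cb hb c) hh hh2 t 1 (by rw [norm_one, one_mul]; exact hc)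
  rw [norm_one, one_mul, one_mul, FF_cb hb c (re_pt hh t), Complex.norm_exp] at h1
  have hae : ∀ᵐ u : ℝ, ‖Complex.exp (1 * bl (cb c b) u)‖ =
      Real.exp (∑ r, c r * bl (b r) u).re := by
    filter_upwards [ae_bl_cb hb c] with u hu
    rw [one_mul, hu, Complex.norm_exp]
  obtain ⟨h2, h3, h4⟩ := h1
  have hI : ∫ u in (t - h / 2)..(t + h / 2), ‖Complex.exp (1 * bl (cb c b) u)‖ =
      ∫ u in (t - h / 2)..(t + h / 2), Real.exp (∑ r, c r * bl (b r) u).re :=
    intervalIntegral.integral_congr_ae (hae.mono fun u hu _ => hu)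
  rw [hI] at h3 h4
  exact ⟨h2.congr (ae_restrict_of_ae hae), h3, h4⟩

end

section
variable {b : PP → ℂ} {M : ℝ}

/-- The local maximum principle, with a power to be chosen. -/
lemma localmax_aux (hb : ∀ x, ‖b x‖ ≤ M / (x.2 + 1 : ℕ)) {h : ℝ} (hh : 0 < h)
    (hh2 : h ≤ 1 / 2) (t : ℝ) {B : ℝ} (hB : ∀ᵐ u : ℝ, |u - t| ≤ h / 2 → (bl b u).re ≤ B) {a : ℝ}
    (ha : 0 < a) (hca : a * M ≤ 1 / 2) :
    (FF b (((1 + h : ℝ) : ℂ) + t * I)).re ≤ B + Real.log 2000 / a := by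
  have hn : ‖(a : ℂ)‖ = a := by rw [Complex.norm_real, Real.norm_of_nonneg ha.le]
  obtain ⟨i1, i2, -⟩ := edge_harnack hb hh hh2 t (a : ℂ) (by rw [hn]; linarith)
  rw [hn] at i2
  have e1 : ∀ z : ℂ, ‖Complex.exp ((a : ℂ) * z)‖ = Real.exp (a * z.re) := by
    intro z
    rw [Complex.norm_exp, Complex.re_ofReal_mul]
  simp only [e1] at i1 i2
  set P : ℝ := (FF b (((1 + h : ℝ) : ℂ) + t * I)).re with hP
  have h2 : ∫ u in (t - h / 2)..(t + h / 2), Real.exp (a * (bl b u).re) ≤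
      h * Real.exp (a * B) := by
    rw [intervalIntegral.integral_of_le (by linarith), ← integral_Icc_eq_integral_Ioc]
    have h3 : ∫ u in Set.Icc (t - h / 2) (t + h / 2), Real.exp (a * (bl b u).re) ≤
        ∫ _u in Set.Icc (t - h / 2) (t + h / 2), Real.exp (a * B) := by
      refine integral_mono_ae i1 (by simp) ?_
      have h4 : ∀ᵐ u ∂(volume.restrict (Set.Icc (t - h / 2) (t + h / 2))),
          u ∈ Set.Icc (t - h / 2) (t + h / 2) := ae_restrict_mem measurableSet_Icc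
      filter_upwards [ae_restrict_of_ae hB, h4] with u hu hmem
      refine Real.exp_le_exp.2 (mul_le_mul_of_nonneg_left (hu ?_) ha.le)
      rw [abs_le]
      constructor <;> linarith [hmem.1, hmem.2]
    refine h3.trans (le_of_eq ?_)
    rw [setIntegral_const, Measure.real, Real.volume_Icc, ENNReal.toReal_ofReal (by linarith),
      smul_eq_mul]
    ring
  have h3 := i2.trans h2
  have h4 : 1 / 2 / 1000 * h * Real.exp (a * P) ≤ h * Real.exp (a * B) := by
    refine le_trans ?_ h3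
    gcongr
    linarith
  have h5 : Real.exp (a * P) ≤ 2000 * Real.exp (a * B) := by
    have : h * Real.exp (a * P) ≤ h * (2000 * Real.exp (a * B)) := by linarith
    exact le_of_mul_le_mul_left this hh
  have h6 := Real.log_le_log (Real.exp_pos _) h5
  rw [Real.log_exp, Real.log_mul (by norm_num) (Real.exp_ne_zero _), Real.log_exp] at h6
  have h7 : P ≤ (Real.log 2000 + a * B) / a := by
    rw [le_div_iff₀ ha]
    linarith
  rw [add_div, mul_div_cancel_left₀ _ ha.ne'] at h7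
  linarith

/-- **The local maximum principle.** -/
theorem localmax (hb : ∀ x, ‖b x‖ ≤ M / (x.2 + 1 : ℕ)) {h : ℝ} (hh : 0 < h)
    (hh2 : h ≤ 1 / 2) (t : ℝ) {B : ℝ} (hB : ∀ᵐ u : ℝ, |u - t| ≤ h / 2 → (bl b u).re ≤ B) :
    (FF b (((1 + h : ℝ) : ℂ) + t * I)).re ≤ B + 2 * Real.log 2000 * M := by
  have hM : 0 ≤ M := M_nonneg hb
  rcases hM.lt_or_eq with hpos | hzero
  · have h1 := localmax_aux hb hh hh2 t hB (a := 1 / (2 * M)) (by positivity) (by
      rw [one_div, mul_inv, mul_assoc, inv_mul_cancel₀ hpos.ne']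
      norm_num)
    rw [div_div_eq_mul_div, div_one] at h1
    linarith
  · rw [← hzero, mul_zero, add_zero]
    have h1 : ∀ k : ℕ, (FF b (((1 + h : ℝ) : ℂ) + t * I)).re ≤
        B + Real.log 2000 * (1 / ((k : ℝ) + 1)) := fun k => by
      have h2 := localmax_aux hb hh hh2 t hB (a := (k : ℝ) + 1) (by positivity) (by
        rw [← hzero, mul_zero]
        norm_num)
      rwa [← div_eq_mul_one_div]
    have h2 : Tendsto (fun k : ℕ => B + Real.log 2000 * (1 / ((k : ℝ) + 1))) atTop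
        (𝓝 (B + Real.log 2000 * 0)) :=
      (tendsto_one_div_add_atTop_nhds_zero_nat.const_mul _).const_add _
    rw [mul_zero, add_zero] at h2
    exact ge_of_tendsto' h2 h1

end

/-- **The joint local maximum principle.** -/
theorem joint_localmax {b : Fin m → PP → ℂ} {M : Fin m → ℝ}
    (hb : ∀ r x, ‖b r x‖ ≤ M r / (x.2 + 1 : ℕ)) (c : Fin m → ℂ) {h : ℝ} (hh : 0 < h)
    (hh2 : h ≤ 1 / 2) (t : ℝ) {B : ℝ}
    (hB : ∀ᵐ u : ℝ, |u - t| ≤ h / 2 → (∑ r, c r * bl (b r) u).re ≤ B) :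
    (∑ r, c r * FF (b r) (((1 + h : ℝ) : ℂ) + t * I)).re ≤
      B + 16 * ∑ r, ‖c r‖ * M r := by
  have h1 := localmax (norm_cb hb c) hh hh2 t (B := B) (by
    filter_upwards [hB, ae_bl_cb hb c] with u hu h2 h3
    rw [h2]
    exact hu h3)
  rw [FF_cb hb c (re_pt hh t)] at h1
  refine h1.trans ?_
  have h2 : 0 ≤ ∑ r, ‖c r‖ * M r := M_nonneg (norm_cb hb c)
  have h3 : Real.log 2000 ≤ 8 := by
    rw [Real.log_le_iff_le_exp (by norm_num)]
    have h4 : (2.7 : ℝ) ≤ Real.exp 1 := by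
      have := Real.exp_one_gt_d9
      linarith
    have h5 : Real.exp 8 = Real.exp 1 ^ 8 := by
      rw [← Real.exp_nat_mul]
      norm_num
    rw [h5]
    calc (2000 : ℝ) ≤ 2.7 ^ 8 := by norm_num
      _ ≤ _ := pow_le_pow_left₀ (by norm_num) h4 8
  nlinarith

end Pool.Agent.N60.EH
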