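import Pool.Agent.N60.EH.Gen
import Pool.Agent.W755.HaightA

/-!
# The supremum on the edge
-/

set_option autoImplicit false

namespace Pool.Agent.N60.EH

open Complex MeasureTheory Finset Filter Topology Metric
open Pool.Agent.TH339.MP
open Pool.Agent.W350.Edge (divSet dimH_divSet)

section
variable {b : PP → ℂ} {M : ℝ}

/-- the local power series -/
noncomputable def Ph (b : PP → ℂ) (p : Nat.Primes) (z : ℂ) : ℂ := ∑' k : ℕ, b (p, k) * z ^ (k + 1)

/-- the local sum -/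
noncomputable def GG (b : PP → ℂ) (p : Nat.Primes) (s : ℂ) : ℂ := ∑' k : ℕ, tm b s (p, k)

lemma GG_eq (b : PP → ℂ) (p : Nat.Primes) (s : ℂ) : GG b p s = Ph b p (((p : ℕ) : ℂ) ^ (-s)) := rfl

lemma Ph_zero (b : PP → ℂ) (p : Nat.Primes) : Ph b p 0 = 0 := by
  unfold Ph
  simp

lemma Ph_diff (hb : ∀ x, ‖b x‖ ≤ M / (x.2 + 1 : ℕ)) (p : Nat.Primes) :
    DifferentiableOn ℂ (Ph b p) (ball 0 (3 / 4)) := by
  have hu : Summable fun k : ℕ => M * (3 / 4 : ℝ) ^ (k + 1) := by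
    refine Summable.mul_left _ ?_
    exact (summable_nat_add_iff 1).2 (summable_geometric_of_lt_one (by norm_num) (by norm_num))
  refine differentiableOn_tsum_of_summable_norm hu (fun k => ?_) isOpen_ball fun k z hz => ?_
  · exact ((differentiable_id.pow _).const_mul _).differentiableOn
  · rw [norm_mul, norm_pow]
    have h1 : ‖z‖ ≤ 3 / 4 := by
      rw [mem_ball_zero_iff] at hz
      exact hz.le
    exact mul_le_mul (norm_b_le hb _) (pow_le_pow_left₀ (norm_nonneg _) h1 _) (by positivity)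
      (M_nonneg hb)

/-- the maximum principle for the local power series -/
lemma Ph_max (hb : ∀ x, ‖b x‖ ≤ M / (x.2 + 1 : ℕ)) (p : Nat.Primes) {r : ℝ} (hr : 0 < r)
    (hr2 : r ≤ 1 / 2) {C : ℝ} (hC : ∀ z : ℂ, ‖z‖ = r → (Ph b p z).re ≤ C) {z : ℂ} (hz : ‖z‖ ≤ r) :
    (Ph b p z).re ≤ C := by
  have h1 : DiffContOnCl ℂ (fun z => Complex.exp (Ph b p z)) (ball 0 r) := by
    refine DifferentiableOn.diffContOnCl_ball (U := ball 0 (3 / 4)) (Ph_diff hb p).cexp ?_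
    exact closedBall_subset_ball (by linarith)
  have h2 : ‖Complex.exp (Ph b p z)‖ ≤ Real.exp C := by
    refine Complex.norm_le_of_forall_mem_frontier_norm_le isBounded_ball h1 ?_ ?_
    · intro w hw
      rw [frontier_ball (0 : ℂ) hr.ne', mem_sphere_zero_iff_norm] at hw
      rw [Complex.norm_exp]
      exact Real.exp_le_exp.2 (hC w hw)
    · rw [closure_ball (0 : ℂ) hr.ne', mem_closedBall_zero_iff]
      exact hz
  rw [Complex.norm_exp] at h2
  exact Real.exp_le_exp.1 h2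

lemma norm_cpow_eq (p : Nat.Primes) (s : ℂ) : ‖((p : ℕ) : ℂ) ^ (-s)‖ = ((p : ℕ) : ℝ) ^ (-s.re) := by
  rw [Complex.norm_natCast_cpow_of_pos p.2.pos, Complex.neg_re]

/-- every point of the circle is a value of `p^{-s}` -/
lemma exists_phase (p : Nat.Primes) (σ : ℝ) {z : ℂ} (hz : ‖z‖ = ((p : ℕ) : ℝ) ^ (-σ)) :
    ∃ u : ℝ, ((p : ℕ) : ℂ) ^ (-((σ : ℂ) + u * I)) = z := by
  have hlog : 0 < Real.log (p : ℕ) := Real.log_pos (by exact_mod_cast p.2.one_lt)
  have hp : (((p : ℕ) : ℕ) : ℂ) ≠ 0 := by exact_mod_cast p.2.ne_zero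
  refine ⟨-(z.arg / Real.log (p : ℕ)), ?_⟩
  have hz0 : z ≠ 0 := by
    rw [← norm_pos_iff, hz]
    exact Real.rpow_pos_of_pos (prime_pos p) _
  rw [Complex.cpow_def_of_ne_zero hp]
  conv_rhs => rw [← Complex.exp_log hz0]
  congr 1
  have h1 : Complex.log z = ((-σ * Real.log (p : ℕ) : ℝ) : ℂ) + z.arg * I := by
    rw [Complex.log, hz, Real.log_rpow (prime_pos p)]
  have h2 : ((Real.log (p : ℕ) : ℝ) : ℂ) ≠ 0 := Complex.ofReal_ne_zero.2 hlog.ne'
  rw [h1, Complex.natCast_log.symm]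
  generalize Real.log ((p : ℕ) : ℝ) = L at h2 ⊢
  simp only [Complex.ofReal_neg, Complex.ofReal_mul, Complex.ofReal_div]
  field_simp
  ring

/-- the maximum principle for the local sums -/
lemma GG_max (hb : ∀ x, ‖b x‖ ≤ M / (x.2 + 1 : ℕ)) (p : Nat.Primes) {σ : ℝ} (hσ : 1 ≤ σ)
    {z : ℂ} (hz : ‖z‖ ≤ ((p : ℕ) : ℝ) ^ (-σ)) {δ : ℝ} (hδ : 0 < δ) :
    ∃ u : ℝ, (Ph b p z).re - δ ≤ (GG b p ((σ : ℂ) + u * I)).re := by
  by_contra hcon
  push Not at hcon
  have h1 := Ph_max hb p (r := ((p : ℕ) : ℝ) ^ (-σ)) (Real.rpow_pos_of_pos (prime_pos p) _)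
    (rpow_neg_le_half p hσ) (C := (Ph b p z).re - δ) (fun w hw => by
      obtain ⟨u, hu⟩ := exists_phase p σ hw
      have h2 := hcon u
      rw [GG_eq, hu] at h2
      exact h2.le) hz
  linarith

lemma summable_GG (hb : ∀ x, ‖b x‖ ≤ M / (x.2 + 1 : ℕ)) (p : Nat.Primes) {s : ℂ}
    (hs : 1 ≤ s.re) : Summable fun k : ℕ => tm b s (p, k) := by
  have hu : Summable fun k : ℕ => M * (1 / 2 : ℝ) ^ (k + 1) := by
    refine Summable.mul_left _ ?_
    exact (summable_nat_add_iff 1).2 (summable_geometric_of_lt_one (by norm_num) (by norm_num))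
  refine Summable.of_norm_bounded hu fun k => ?_
  rw [norm_tm]
  refine mul_le_mul (norm_b_le hb _) ?_ (wt_nonneg _ _) (M_nonneg hb)
  unfold wt
  exact pow_le_pow_left₀ (Real.rpow_nonneg (prime_pos p).le _) (rpow_neg_le_half p hs) _

/-- the local sums depend continuously on the phase -/
lemma GG_lip (hb : ∀ x, ‖b x‖ ≤ M / (x.2 + 1 : ℕ)) (p : Nat.Primes) {σ : ℝ} (hσ : 1 ≤ σ)
    {t u η : ℝ} {n : ℤ} (h : |t * Real.log (p : ℕ) - u * Real.log (p : ℕ) - 2 * Real.pi * n| ≤ η) :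
    ‖GG b p ((σ : ℂ) + t * I) - GG b p ((σ : ℂ) + u * I)‖ ≤ M * η := by
  have hM := M_nonneg hb
  have hre : ∀ v : ℝ, 1 ≤ ((σ : ℂ) + v * I).re := by
    intro v
    simpa using hσ
  have h1 := summable_GG hb p (hre t)
  have h2 := summable_GG hb p (hre u)
  unfold GG
  rw [← h1.tsum_sub h2]
  have hu : HasSum (fun k : ℕ => (M * η) * (1 / 2 : ℝ) ^ (k + 1)) (M * η) := by
    have h3 := (hasSum_geometric_two' 1).mul_left (M * η)
    rw [mul_one] at h3
    have h4 : (fun k : ℕ => (M * η) * (1 / 2 : ℝ) ^ (k + 1)) =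
        fun k : ℕ => M * η * (1 / 2 / 2 ^ k) := by
      funext k
      rw [pow_succ, one_div_pow]
      ring
    rw [h4]
    exact h3
  refine tsum_of_norm_bounded hu fun k => ?_
  rw [tm_eq, tm_eq, ← mul_sub, norm_mul, norm_mul, Complex.norm_real,
    Real.norm_of_nonneg (wt_nonneg _ _)]
  have h4 : ee (fr (p, k)) t = ee (-((k + 1 : ℕ) : ℝ)) (t * Real.log (p : ℕ) - 2 * Real.pi * n) := by
    unfold ee fr
    rw [Complex.exp_eq_exp_iff_exists_int]
    refine ⟨-(n * (k + 1)), ?_⟩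
    push_cast
    ring
  have h5 : ee (fr (p, k)) u = ee (-((k + 1 : ℕ) : ℝ)) (u * Real.log (p : ℕ)) := by
    unfold ee fr
    congr 1
    push_cast
    ring
  have h6 : ‖ee (fr (p, k)) t - ee (fr (p, k)) u‖ ≤ ((k + 1 : ℕ) : ℝ) * η := by
    rw [h4, h5]
    refine (ee_lip _ _ _).trans ?_
    rw [abs_neg, abs_of_nonneg (Nat.cast_nonneg _)]
    refine mul_le_mul_of_nonneg_left ?_ (Nat.cast_nonneg _)
    refine le_trans (le_of_eq ?_) h
    congr 1
    ring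
  have h7 : wt σ (p, k) ≤ (1 / 2 : ℝ) ^ (k + 1) := by
    unfold wt
    exact pow_le_pow_left₀ (Real.rpow_nonneg (prime_pos p).le _) (rpow_neg_le_half p hσ) _
  have h8 := hb (p, k)
  have h9 : (0 : ℝ) < ((k + 1 : ℕ) : ℝ) := by positivity
  have hη : 0 ≤ η := (abs_nonneg _).trans h
  calc ‖b (p, k)‖ * wt σ (p, k) * ‖ee (fr (p, k)) t - ee (fr (p, k)) u‖
      ≤ (M / ((k + 1 : ℕ) : ℝ)) * (1 / 2 : ℝ) ^ (k + 1) * (((k + 1 : ℕ) : ℝ) * η) := by
        gcongr
        exact wt_nonneg _ _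
    _ = _ := by field_simp

end

end Pool.Agent.N60.EH
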