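import Pool.Agent.N60.EH.Gen

/-!
# The Euler products of the varieties and their boundary functions
-/

set_option autoImplicit false

namespace Pool.Agent.N60.EH

open Complex MeasureTheory Filter Topology NumberField IsDedekindDomain
open Pool.Agent.TH339.MP (PP FF bb norm_bb hasProd_L hasSum_all lv nm bl bl_angle ap)
open Pool.Agent.W350.Edge (divSet dimH_divSet)
open Pool.Agent.Y770.SC (nb norm_nb nm_pos)
open Pool.Agent.TH958.BV (edgePoint angle IsFrobenius)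

variable {K : Type} [Field K] [NumberField K] {N : ℕ}

open Classical in
/-- The product over the primes `v ∉ S` of `∏_j (1 - α_{v,j} Nv^{-s})⁻¹`. -/
noncomputable def EP (S : Set (HeightOneSpectrum (𝓞 K)))
    (α : HeightOneSpectrum (𝓞 K) → Fin N → ℂ) (s : ℂ) : ℂ :=
  ∏' v : HeightOneSpectrum (𝓞 K), if v ∈ S then 1 else
    ∏ j, (1 - α v j * (Ideal.absNorm v.asIdeal : ℂ) ^ (-s))⁻¹

open Classical in
/-- Its logarithm. -/
noncomputable def LG (S : Set (HeightOneSpectrum (𝓞 K)))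
    (α : HeightOneSpectrum (𝓞 K) → Fin N → ℂ) (s : ℂ) : ℂ :=
  ∑' v : HeightOneSpectrum (𝓞 K), if v ∈ S then 0 else
    ∑ j, -Complex.log (1 - α v j * (Ideal.absNorm v.asIdeal : ℂ) ^ (-s))

variable {i : ℕ} {S : Set (HeightOneSpectrum (𝓞 K))} {α : HeightOneSpectrum (𝓞 K) → Fin N → ℂ}

lemma nb_mul {v : HeightOneSpectrum (𝓞 K)} (hv : v ∉ S) (j : Fin N) (s : ℂ) :
    α v j * (Ideal.absNorm v.asIdeal : ℂ) ^ (-(s + i / 2)) =
      nb i S α v j * ((nm v : ℕ) : ℂ) ^ (-s) := by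
  unfold nb
  rw [if_neg hv]
  have hn0 : ((nm v : ℕ) : ℂ) ≠ 0 := by
    have := nm_pos v
    exact_mod_cast this.ne'
  have e1 : ((((nm v : ℝ) ^ ((i : ℝ) / 2) : ℝ)) : ℂ) = ((nm v : ℕ) : ℂ) ^ ((i : ℂ) / 2) := by
    rw [Complex.ofReal_cpow (Nat.cast_nonneg _)]
    push_cast
    rfl
  have e2 : ((nm v : ℕ) : ℂ) ^ (-(s + i / 2)) =
      ((nm v : ℕ) : ℂ) ^ (-s) / ((nm v : ℕ) : ℂ) ^ ((i : ℂ) / 2) := by
    rw [neg_add, Complex.cpow_add _ _ hn0, Complex.cpow_neg _ ((i : ℂ) / 2), ← div_eq_mul_inv]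
  have e3 : (Ideal.absNorm v.asIdeal : ℂ) = ((nm v : ℕ) : ℂ) := rfl
  rw [e1, e3, e2]
  ring

lemma EP_eq (hα : ∀ v, v ∉ S → ∀ j, ‖α v j‖ = (nm v : ℝ) ^ ((i : ℝ) / 2)) {s : ℂ}
    (hs : 1 < s.re) : EP S α (s + i / 2) = Complex.exp (FF (bb (nb i S α)) s) := by
  have h1 := hasProd_L (norm_nb hα) hs
  rw [← h1.tprod_eq]
  unfold EP
  refine tprod_congr fun v => ?_
  by_cases hv : v ∈ S
  · rw [if_pos hv]
    symm
    refine Finset.prod_eq_one fun j _ => ?_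
    unfold nb
    rw [if_pos hv]
    simp
  · rw [if_neg hv]
    exact Finset.prod_congr rfl fun j _ => by rw [nb_mul hv]

lemma LG_eq (hα : ∀ v, v ∉ S → ∀ j, ‖α v j‖ = (nm v : ℝ) ^ ((i : ℝ) / 2)) {s : ℂ}
    (hs : 1 < s.re) : LG S α (s + i / 2) = FF (bb (nb i S α)) s := by
  have h1 := hasSum_all (norm_nb hα) hs
  rw [← h1.tsum_eq]
  unfold LG
  refine tsum_congr fun v => ?_
  unfold Pool.Agent.TH339.MP.lv
  by_cases hv : v ∈ S
  · rw [if_pos hv]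
    symm
    refine Finset.sum_eq_zero fun j _ => ?_
    unfold nb
    rw [if_pos hv]
    simp
  · rw [if_neg hv]
    exact Finset.sum_congr rfl fun j _ => by rw [nb_mul hv]

lemma edge_eq (i : ℕ) (t : ℝ) : edgePoint i t = 1 + t * I + (i : ℂ) / 2 := by
  unfold edgePoint
  push_cast
  ring

lemma shift_re {s : ℂ} (hs : (i : ℝ) / 2 + 1 < s.re) : 1 < (s - (i : ℂ) / 2).re := by
  have h3 : ((i : ℂ) / 2) = (((i : ℝ) / 2 : ℝ) : ℂ) := by push_cast; rfl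
  rw [Complex.sub_re, h3, Complex.ofReal_re]
  linarith

lemma exp_LG (hα : ∀ v, v ∉ S → ∀ j, ‖α v j‖ = (nm v : ℝ) ^ ((i : ℝ) / 2)) {s : ℂ}
    (hs : (i : ℝ) / 2 + 1 < s.re) : Complex.exp (LG S α s) = EP S α s := by
  have h1 := EP_eq hα (shift_re hs)
  have h2 := LG_eq hα (shift_re hs)
  rw [sub_add_cancel] at h1 h2
  rw [h1, h2]

lemma LG_edge (hα : ∀ v, v ∉ S → ∀ j, ‖α v j‖ = (nm v : ℝ) ^ ((i : ℝ) / 2)) {h : ℝ}
    (hh : 0 < h) (t : ℝ) : LG S α (edgePoint i t + h) =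
      FF (bb (nb i S α)) (((1 + h : ℝ) : ℂ) + t * I) := by
  have e : edgePoint i t + h = (((1 + h : ℝ) : ℂ) + t * I) + (i : ℂ) / 2 := by
    rw [edge_eq]
    push_cast
    ring
  rw [e]
  exact LG_eq hα (re_pt hh t)

lemma norm_b (hα : ∀ v, v ∉ S → ∀ j, ‖α v j‖ = (nm v : ℝ) ^ ((i : ℝ) / 2)) (x : PP) :
    ‖bb (nb i S α) x‖ ≤ ((N : ℝ) * Module.finrank ℚ K) / (x.2 + 1 : ℕ) := by
  rw [mul_comm (N : ℝ)]
  exact norm_bb (norm_nb hα) x

lemma LG_angle (hα : ∀ v, v ∉ S → ∀ j, ‖α v j‖ = (nm v : ℝ) ^ ((i : ℝ) / 2)) {τ : ℝ}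
    (hτ : τ ∉ divSet (ap (bb (nb i S α)))) (C : ℝ) :
    Tendsto (LG S α) (𝓝[angle i τ C] (edgePoint i τ)) (𝓝 (bl (bb (nb i S α)) τ)) := by
  have h5 := bl_angle (norm_b hα) hτ C
  have h6 : Tendsto (fun s : ℂ => s - edgePoint i τ) (𝓝[angle i τ C] (edgePoint i τ))
      (𝓝[{z : ℂ | 0 < z.re ∧ ‖z‖ ≤ C * z.re}] 0) := by
    rw [tendsto_nhdsWithin_iff]
    constructor
    · have h7 : Tendsto (fun s : ℂ => s - edgePoint i τ) (𝓝 (edgePoint i τ))
          (𝓝 (edgePoint i τ - edgePoint i τ)) :=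
        (continuous_id.sub continuous_const).tendsto _
      rw [sub_self] at h7
      exact h7.mono_left nhdsWithin_le_nhds
    · filter_upwards [self_mem_nhdsWithin] with s hs
      have hre : (s - edgePoint i τ).re = s.re - ((i : ℝ) / 2 + 1) := by
        unfold edgePoint
        simp
      refine ⟨?_, ?_⟩
      · rw [hre]
        linarith [hs.1]
      · rw [hre]
        exact hs.2
  refine (h5.comp h6).congr' ?_
  filter_upwards [self_mem_nhdsWithin] with s hs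
  simp only [Function.comp_apply]
  have e : (1 + τ * I + (s - edgePoint i τ)) = s - (i : ℂ) / 2 := by
    rw [edge_eq]
    ring
  have h2 := LG_eq hα (shift_re hs.1)
  rw [sub_add_cancel] at h2
  rw [e, h2]

lemma norm_of_isFrobenius {n : ℕ} {X : Set (MvPolynomial (Fin n) (𝓞 K))} {d : ℕ}
    (hα : ∀ v, v ∉ S → IsFrobenius X d i v (α v)) :
    ∀ v, v ∉ S → ∀ j, ‖α v j‖ = (nm v : ℝ) ^ ((i : ℝ) / 2) := by
  intro v hv j
  obtain ⟨β, h1, h2, h3⟩ := hα v hv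
  refine h2 i (α v j) ?_
  rw [h1]
  exact Multiset.mem_map_of_mem _ (Finset.mem_univ_val j)

end Pool.Agent.N60.EH
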