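import Pool.Agent.N60.EH.Main
import Pool.Agent.N60.EH.Var
import Pool.Agent.Y770.SC.Rep2

/-!
# The local sums of the varieties
-/

set_option autoImplicit false

namespace Pool.Agent.N60.EH

open Complex MeasureTheory Filter Topology NumberField IsDedekindDomain
open Pool.Agent.TH339.MP (PP FF bb tm norm_bb hasProd_L hasSum_all hasSum_fiber lv nm nm_eq pr dg
  dg_pos Sp mem_Sp bl bl_angle ap wt)
open Pool.Agent.W350.Edge (divSet dimH_divSet)
open Pool.Agent.Y770.SC (nb norm_nb nm_pos)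
open Pool.Agent.TH958.BV (edgePoint angle IsFrobenius)

lemma GG_cb {m : ℕ} {b : Fin m → PP → ℂ} {M : Fin m → ℝ}
    (hb : ∀ r x, ‖b r x‖ ≤ M r / (x.2 + 1 : ℕ)) (c : Fin m → ℂ) (p : Nat.Primes) {s : ℂ}
    (hs : 1 ≤ s.re) : GG (cb c b) p s = ∑ r, c r * GG (b r) p s := by
  have h1 : ∀ r, Summable fun k : ℕ => tm (b r) s (p, k) := fun r => summable_GG (hb r) p hs
  unfold GG
  have h2 : ∀ k : ℕ, tm (cb c b) s (p, k) = ∑ r, c r * tm (b r) s (p, k) := by
    intro k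
    unfold tm cb
    rw [Finset.sum_mul]
    exact Finset.sum_congr rfl fun r _ => by ring
  rw [tsum_congr h2, Summable.tsum_finsetSum fun r _ => (h1 r).mul_left _]
  exact Finset.sum_congr rfl fun r _ => tsum_mul_left

variable {K : Type} [Field K] [NumberField K] {N : ℕ}

open Classical in
/-- The logarithm of the Euler factor at `p` at the point `i/2 + 1 + it`. -/
noncomputable def LL (i : ℕ) (S : Set (HeightOneSpectrum (𝓞 K)))
    (α : HeightOneSpectrum (𝓞 K) → Fin N → ℂ) (p : ℕ) (t : ℝ) : ℂ :=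
  ∑' v : HeightOneSpectrum (𝓞 K), if v ∉ S ∧ p ∣ Ideal.absNorm v.asIdeal then
    ∑ j, -Complex.log (1 - α v j * (Ideal.absNorm v.asIdeal : ℂ) ^ (-(edgePoint i t))) else 0

open Classical in
/-- The normalised trace at `p`. -/
noncomputable def TR (i : ℕ) (S : Set (HeightOneSpectrum (𝓞 K)))
    (α : HeightOneSpectrum (𝓞 K) → Fin N → ℂ) (p : ℕ) : ℂ :=
  (∑' v : HeightOneSpectrum (𝓞 K), if v ∉ S ∧ Ideal.absNorm v.asIdeal = p then ∑ j, α v j else 0) /
    (((p : ℝ) ^ ((i : ℝ) / 2) : ℝ) : ℂ)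

variable {i : ℕ} {S : Set (HeightOneSpectrum (𝓞 K))} {α : HeightOneSpectrum (𝓞 K) → Fin N → ℂ}

lemma GG_eq_LL (hα : ∀ v, v ∉ S → ∀ j, ‖α v j‖ = (nm v : ℝ) ^ ((i : ℝ) / 2)) (p : Nat.Primes)
    (t : ℝ) : GG (bb (nb i S α)) p (((1 : ℝ) : ℂ) + t * I) = LL i S α p t := by
  classical
  have h1 := hasSum_fiber (norm_nb hα) p (s := ((1 : ℝ) : ℂ) + t * I) (by simp)
  unfold GG
  rw [h1.tsum_eq]
  unfold LL
  have hnd : ∀ v : HeightOneSpectrum (𝓞 K), (p : ℕ) ∣ Ideal.absNorm v.asIdeal ↔ v ∈ Sp p := by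
    intro v
    have hnm : Ideal.absNorm v.asIdeal = ((pr v : ℕ)) ^ dg v := nm_eq v
    rw [mem_Sp, hnm]
    constructor
    · intro h
      exact (Subtype.ext ((Nat.prime_dvd_prime_iff_eq p.2 (pr v).2).1 (p.2.dvd_of_dvd_pow h))).symm
    · rintro rfl
      exact dvd_pow_self _ (dg_pos v).ne'
  rw [tsum_eq_sum (s := (Sp p : Finset (HeightOneSpectrum (𝓞 K)))) fun v hv => by
    rw [if_neg]
    rintro ⟨-, h⟩
    exact hv ((hnd v).1 h)]
  refine Finset.sum_congr rfl fun v hv => ?_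
  unfold Pool.Agent.TH339.MP.lv
  have hep : edgePoint i t = (((1 : ℝ) : ℂ) + t * I) + (i : ℂ) / 2 := by
    rw [edge_eq]
    push_cast
    ring
  by_cases hS : v ∈ S
  · rw [if_neg fun h => h.1 hS]
    refine Finset.sum_eq_zero fun j _ => ?_
    unfold nb
    rw [if_pos hS]
    simp
  · rw [if_pos ⟨hS, (hnd v).2 hv⟩]
    exact Finset.sum_congr rfl fun j _ => by rw [hep, nb_mul hS]

lemma b_eq_TR (p : Nat.Primes) : bb (nb i S α) (p, 0) = TR i S α p := by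
  have h1 := Pool.Agent.Y770.SC.trI_eq i S α (p, 0)
  simp only [zero_add, Nat.cast_one, one_mul] at h1
  rw [← h1]
  unfold Pool.Agent.Y770.SC.trI TR
  rw [Nat.cast_one, one_mul]
  refine congrArg (fun z => z / _) (tsum_congr fun v => ?_)
  rw [Nat.divisors_one, Finset.sum_singleton]
  by_cases h : v ∉ S ∧ Ideal.absNorm v.asIdeal = (p : ℕ)
  · rw [if_pos h, if_pos ⟨h.1, by rw [pow_one]; exact h.2⟩]
    simp
  · rw [if_neg h, if_neg fun h' => h ⟨h'.1, by rw [h'.2, pow_one]⟩]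

lemma LG_shift (hα : ∀ v, v ∉ S → ∀ j, ‖α v j‖ = (nm v : ℝ) ^ ((i : ℝ) / 2)) {w : ℂ}
    (hw : 0 < w.re) : LG S α ((i : ℂ) / 2 + 1 + w) = FF (bb (nb i S α)) (1 + w) := by
  have e : (i : ℂ) / 2 + 1 + w = (1 + w) + (i : ℂ) / 2 := by ring
  rw [e]
  refine LG_eq hα ?_
  rw [Complex.add_re, Complex.one_re]
  linarith

end Pool.Agent.N60.EH
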