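import Pool.Agent.N60.EH.Sup

/-!
# The supremum on the edge, III
-/

set_option autoImplicit false

namespace Pool.Agent.N60.EH

open Complex MeasureTheory Finset Filter Topology Metric
open Pool.Agent.TH339.MP
open Pool.Agent.W350.Edge (divSet dimH_divSet)

section
variable {b : PP → ℂ} {M : ℝ}

lemma summable_wt' (hb : ∀ x, ‖b x‖ ≤ M / (x.2 + 1 : ℕ)) {σ : ℝ} (hσ : 1 < σ) :
    Summable fun x => ‖b x‖ * wt σ x := by
  have h1 := (summable_tm hb (s := (σ : ℂ)) (by simpa using hσ)).norm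
  refine h1.congr fun x => ?_
  rw [norm_tm, Complex.ofReal_re]

/-- Bohr's inequality, up to a constant, for functions bounded above -/
lemma bohr (hb : ∀ x, ‖b x‖ ≤ M / (x.2 + 1 : ℕ)) {B σ : ℝ} (hσ : 1 < σ)
    (hB : ∀ t : ℝ, (FF b ((σ : ℂ) + t * I)).re ≤ B) (P : Finset Nat.Primes) :
    ∑ p ∈ P, ‖b (p, 0)‖ * wt σ (p, 0) ≤ B + M * ∑' x : PP, wt 1 (sh x) := by
  classical
  have hM := M_nonneg hb
  -- the phases
  have hex : ∀ p : Nat.Primes, ∃ u : ℝ,
      b (p, 0) * (((p : ℕ) : ℂ) ^ (-((σ : ℂ) + u * I))) = ((‖b (p, 0)‖ * wt σ (p, 0) : ℝ) : ℂ) := by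
    intro p
    have hw : wt σ (p, 0) = ((p : ℕ) : ℝ) ^ (-σ) := by
      unfold wt
      simp
    have hr : 0 ≤ ((p : ℕ) : ℝ) ^ (-σ) := Real.rpow_nonneg (prime_pos p).le _
    by_cases h0 : b (p, 0) = 0
    · exact ⟨0, by rw [h0]; simp⟩
    · have hn : (‖b (p, 0)‖ : ℂ) ≠ 0 := by
        simpa using h0
      obtain ⟨u, hu⟩ := exists_phase p σ (z := (‖b (p, 0)‖ : ℂ) / b (p, 0) *
        ((((p : ℕ) : ℝ) ^ (-σ) : ℝ) : ℂ)) (by
          rw [norm_mul, norm_div, Complex.norm_real, Complex.norm_real, norm_norm,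
            div_self (norm_ne_zero_iff.2 h0), one_mul, Real.norm_of_nonneg hr])
      refine ⟨u, ?_⟩
      rw [hu, hw]
      push_cast
      field_simp
  choose u hu using hex
  have h1 := sup_le hb hσ.le (summable_wt' hb hσ) hB P u
  have hs : ∀ t : ℝ, 1 ≤ ((σ : ℂ) + t * I).re := by
    intro t
    simpa using hσ.le
  have h2 : ∀ p, ‖b (p, 0)‖ * wt σ (p, 0) - M * ∑' k : ℕ, wt 1 (sh (p, k)) ≤
      (GG b p ((σ : ℂ) + u p * I)).re := by
    intro p
    have h3 := summable_GG hb p (hs (u p))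
    have h4 : GG b p ((σ : ℂ) + u p * I) = ((‖b (p, 0)‖ * wt σ (p, 0) : ℝ) : ℂ) +
        ∑' k : ℕ, tm b ((σ : ℂ) + u p * I) (p, k + 1) := by
      unfold GG
      rw [h3.tsum_eq_zero_add, ← hu p]
      congr 1
      unfold tm
      simp
    have hsw : Summable fun k : ℕ => wt 1 (sh (p, k)) :=
      wt_sh_summable.comp_injective (i := fun k : ℕ => ((p, k) : PP)) fun k l h =>
        congrArg Prod.snd h
    have h5 : ‖∑' k : ℕ, tm b ((σ : ℂ) + u p * I) (p, k + 1)‖ ≤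
        M * ∑' k : ℕ, wt 1 (sh (p, k)) := by
      rw [← tsum_mul_left]
      exact tsum_of_norm_bounded (hsw.mul_left M).hasSum fun k => norm_tm_sh hb (hs (u p)) (p, k)
    rw [h4, Complex.add_re, Complex.ofReal_re]
    have h6 := (Complex.abs_re_le_norm _).trans h5
    linarith [(abs_le.1 h6).1]
  have h3 := (Finset.sum_le_sum fun p (_ : p ∈ P) => h2 p).trans h1
  rw [Finset.sum_sub_distrib, ← Finset.mul_sum] at h3
  have h4 : ∑ p ∈ P, ∑' k : ℕ, wt 1 (sh (p, k)) ≤ ∑' x : PP, wt 1 (sh x) := by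
    have h5 : Summable fun p : Nat.Primes => ∑' k : ℕ, wt 1 (sh (p, k)) := wt_sh_summable.prod
    have h6 : ∑' x : PP, wt 1 (sh x) = ∑' p : Nat.Primes, ∑' k : ℕ, wt 1 (sh (p, k)) :=
      wt_sh_summable.tsum_prod
    rw [h6]
    exact h5.sum_le_tsum P fun p _ => tsum_nonneg fun k => wt_nonneg _ _
  have h5 := mul_le_mul_of_nonneg_left h4 hM
  linarith

/-- absolute convergence on the edge -/
theorem summable_edge (hb : ∀ x, ‖b x‖ ≤ M / (x.2 + 1 : ℕ)) {B : ℝ}
    (hB : ∀ h : ℝ, 0 < h → h ≤ 1 / 2 → ∀ t : ℝ, (FF b (((1 + h : ℝ) : ℂ) + t * I)).re ≤ B) :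
    Summable fun x => ‖b x‖ * wt 1 x := by
  have hM := M_nonneg hb
  have h1 : ∀ P : Finset Nat.Primes, ∑ p ∈ P, ‖b (p, 0)‖ * wt 1 (p, 0) ≤
      B + M * ∑' x : PP, wt 1 (sh x) := by
    intro P
    have h2 : Tendsto (fun n : ℕ => ∑ p ∈ P, ‖b (p, 0)‖ * wt (1 + 1 / ((n : ℝ) + 1)) (p, 0)) atTop
        (𝓝 (∑ p ∈ P, ‖b (p, 0)‖ * wt 1 (p, 0))) := by
      refine tendsto_finsetSum _ fun p _ => Tendsto.const_mul _ ?_
      have h3 : Tendsto (fun n : ℕ => 1 + 1 / ((n : ℝ) + 1)) atTop (𝓝 (1 + 0)) :=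
        tendsto_one_div_add_atTop_nhds_zero_nat.const_add 1
      rw [add_zero] at h3
      have h4 : Continuous fun σ : ℝ => wt σ (p, 0) := by
        unfold wt
        exact (continuous_const.rpow continuous_neg
          fun _ => Or.inl (prime_pos p).ne').pow _
      exact (h4.tendsto 1).comp h3
    refine le_of_tendsto h2 ?_
    filter_upwards [eventually_ge_atTop 1] with n hn
    have h5 : (0 : ℝ) < 1 / ((n : ℝ) + 1) := by positivity
    have h6 : 1 / ((n : ℝ) + 1) ≤ 1 / 2 := by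
      have : (1 : ℝ) ≤ n := by exact_mod_cast hn
      exact one_div_le_one_div_of_le (by norm_num) (by linarith)
    exact bohr hb (by linarith) (hB _ h5 h6) P
  have h2 : Summable fun p : Nat.Primes => ‖b (p, 0)‖ * wt 1 (p, 0) :=
    summable_of_sum_le (fun p => mul_nonneg (norm_nonneg _) (wt_nonneg _ _)) h1
  have h3 : Summable fun x : PP => ‖b (sh x)‖ * wt 1 (sh x) := by
    refine Summable.of_nonneg_of_le (fun x => mul_nonneg (norm_nonneg _) (wt_nonneg _ _))
      (fun x => ?_) (wt_sh_summable.mul_left M)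
    exact mul_le_mul_of_nonneg_right (norm_b_le hb _) (wt_nonneg _ _)
  rw [summable_prod_of_nonneg (fun x => mul_nonneg (norm_nonneg _) (wt_nonneg _ _))]
  have h4 : ∀ p : Nat.Primes, Summable fun k : ℕ => ‖b (p, k)‖ * wt 1 (p, k) := by
    intro p
    have := (summable_GG hb p (s := (1 : ℂ)) (by simp)).norm
    refine this.congr fun k => ?_
    rw [norm_tm, Complex.one_re]
  refine ⟨h4, ?_⟩
  have h5 : Summable fun p : Nat.Primes => ∑' k : ℕ, ‖b (p, k + 1)‖ * wt 1 (p, k + 1) := h3.prod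
  refine (h2.add h5).congr fun p => ?_
  exact (h4 p).tsum_eq_zero_add.symm

lemma norm_tm_le (s : ℂ) (hs : 1 ≤ s.re) (x : PP) : ‖tm b s x‖ ≤ ‖b x‖ * wt 1 x := by
  rw [norm_tm]
  exact mul_le_mul_of_nonneg_left (wt_anti hs x) (norm_nonneg _)

/-- continuity in the closed half-plane -/
lemma FF_continuousOn (hsum : Summable fun x => ‖b x‖ * wt 1 x) :
    ContinuousOn (FF b) {s : ℂ | 1 ≤ s.re} := by
  unfold FF
  exact continuousOn_tsum (fun x => (continuous_tm b x).continuousOn) hsum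
    fun x s hs => norm_tm_le s hs x

/-- the boundary function -/
lemma bl_eq (hb : ∀ x, ‖b x‖ ≤ M / (x.2 + 1 : ℕ)) (hsum : Summable fun x => ‖b x‖ * wt 1 x)
    {τ : ℝ} (hτ : τ ∉ divSet (ap b)) : bl b τ = FF b ((1 : ℝ) + τ * I) := by
  refine tendsto_nhds_unique (radial hb hτ) ?_
  have h1 : (((1 : ℝ) : ℂ) + τ * I) ∈ {s : ℂ | 1 ≤ s.re} := by simp
  have h2 := (FF_continuousOn hsum) _ h1
  refine h2.tendsto.comp ?_
  rw [tendsto_nhdsWithin_iff]
  constructor
  · have h3 : Tendsto (fun n : ℕ => ((1 + 1 / ((n : ℝ) + 1) : ℝ))) atTop (𝓝 (1 + 0)) :=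
      tendsto_one_div_add_atTop_nhds_zero_nat.const_add 1
    rw [add_zero] at h3
    exact ((Complex.continuous_ofReal.tendsto 1).comp h3).add_const _
  · refine Eventually.of_forall fun n => ?_
    have h3 : (0 : ℝ) < 1 / ((n : ℝ) + 1) := by positivity
    change 1 ≤ (((1 + 1 / ((n : ℝ) + 1) : ℝ) : ℂ) + τ * I).re
    simp only [Complex.add_re, Complex.ofReal_re, Complex.mul_re, Complex.I_re,
      Complex.ofReal_im, Complex.I_im, mul_zero, mul_one, sub_zero, add_zero]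
    linarith

lemma continuous_edge (hsum : Summable fun x => ‖b x‖ * wt 1 x) :
    Continuous fun τ : ℝ => FF b ((1 : ℝ) + τ * I) := by
  refine (FF_continuousOn hsum).comp_continuous (by fun_prop) fun τ => ?_
  change 1 ≤ (((1 : ℝ) : ℂ) + τ * I).re
  simp

/-- from the edge to the local sums: absolute convergence -/
lemma summable_of_edge (hb : ∀ x, ‖b x‖ ≤ M / (x.2 + 1 : ℕ)) {B : ℝ}
    (h1 : ∀ᵐ τ : ℝ, (bl b τ).re ≤ B) : Summable fun x => ‖b x‖ * wt 1 x :=
  summable_edge hb fun _ hh hh2 t => localmax hb hh hh2 t (h1.mono fun _ hu _ => hu)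

/-- **The supremum on the edge.** -/
theorem edge_sup (hb : ∀ x, ‖b x‖ ≤ M / (x.2 + 1 : ℕ)) (B : ℝ) :
    List.TFAE [∀ᵐ τ : ℝ, (bl b τ).re ≤ B, ∀ s : ℂ, 1 < s.re → (FF b s).re ≤ B,
      ∀ (P : Finset Nat.Primes) (u : Nat.Primes → ℝ),
        ∑ p ∈ P, (GG b p (((1 : ℝ) : ℂ) + u p * I)).re ≤ B] := by
  tfae_have 1 → 3 := by
    intro h1 P u
    have hsum := summable_of_edge hb h1
    have h2 : ∀ᵐ τ : ℝ, (FF b ((1 : ℝ) + τ * I)).re ≤ B := by
      filter_upwards [h1, ae_notMem hb] with τ hu hτ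
      rwa [← bl_eq hb hsum hτ]
    have h3 : ∀ τ : ℝ, (FF b ((1 : ℝ) + τ * I)).re ≤ B := by
      have hd : Dense {τ : ℝ | (FF b ((1 : ℝ) + τ * I)).re ≤ B} :=
        MeasureTheory.Measure.dense_of_ae h2
      have hc : IsClosed {τ : ℝ | (FF b ((1 : ℝ) + τ * I)).re ≤ B} :=
        isClosed_le (Complex.continuous_re.comp (continuous_edge hsum)) continuous_const
      intro τ
      have : τ ∈ {τ : ℝ | (FF b ((1 : ℝ) + τ * I)).re ≤ B} := by
        rw [← hc.closure_eq, hd.closure_eq]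
        exact Set.mem_univ _
      exact this
    exact sup_le hb le_rfl hsum h3 P u
  tfae_have 3 → 2 := by
    intro h3 s hs
    have hP : ∀ P : Finset Nat.Primes, ∑ p ∈ P, (GG b p s).re ≤ B := by
      intro P
      refine le_of_forall_pos_le_add fun ε hε => ?_
      have hex : ∀ p : Nat.Primes, ∃ u : ℝ, (GG b p s).re - ε / ((P.card : ℝ) + 1) ≤
          (GG b p (((1 : ℝ) : ℂ) + u * I)).re := by
        intro p
        rw [GG_eq b p s]
        refine GG_max hb p le_rfl ?_ (by positivity)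
        rw [norm_cpow_eq]
        exact Real.rpow_le_rpow_of_exponent_le (by exact_mod_cast p.2.one_lt.le) (by linarith)
      choose u hu using hex
      have h4 := (Finset.sum_le_sum fun p (_ : p ∈ P) => hu p).trans (h3 P u)
      rw [Finset.sum_sub_distrib, Finset.sum_const, nsmul_eq_mul] at h4
      have h5 : (P.card : ℝ) * (ε / ((P.card : ℝ) + 1)) ≤ ε := by
        rw [← mul_div_assoc, div_le_iff₀ (by positivity)]
        nlinarith
      linarith
    refine le_of_forall_pos_le_add fun ε hε => ?_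
    obtain ⟨P, -, h4⟩ := tail_GG hb hs.le (summable_wt' hb hs) hε ∅
    have h5 := (Complex.abs_re_le_norm _).trans (h4 s rfl)
    rw [Complex.sub_re, Complex.re_sum] at h5
    linarith [(abs_le.1 h5).2, hP P]
  tfae_have 2 → 1 := by
    intro h2
    filter_upwards [ae_notMem hb] with τ hτ
    have h3 := (Complex.continuous_re.tendsto _).comp (radial hb hτ)
    refine le_of_tendsto' h3 fun n => ?_
    refine h2 _ ?_
    have h4 : (0 : ℝ) < 1 / ((n : ℝ) + 1) := by positivity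
    simp only [Complex.add_re, Complex.ofReal_re, Complex.mul_re, Complex.I_re,
      Complex.ofReal_im, Complex.I_im, mul_zero, mul_one, sub_zero, add_zero]
    linarith
  tfae_finish

/-- **Rigidity.** -/
theorem edge_rigid (hb : ∀ x, ‖b x‖ ≤ M / (x.2 + 1 : ℕ))
    (h : ∀ᵐ τ : ℝ, (bl b τ).re ≤ 0) {s : ℂ} (hs : 1 < s.re) : FF b s = 0 := by
  have h3 := ((edge_sup hb 0).out 0 2).1 h
  have h4 : ∀ (p : Nat.Primes) (u : ℝ), (GG b p (((1 : ℝ) : ℂ) + u * I)).re ≤ 0 := by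
    intro p u
    have := h3 {p} fun _ => u
    simpa using this
  have h5 : ∀ (p : Nat.Primes) (z : ℂ), ‖z‖ ≤ ((p : ℕ) : ℝ) ^ (-(1 : ℝ)) → (Ph b p z).re ≤ 0 := by
    intro p z hz
    refine Ph_max hb p (Real.rpow_pos_of_pos (prime_pos p) _) (rpow_neg_le_half p le_rfl)
      (fun w hw => ?_) hz
    obtain ⟨u, hu⟩ := exists_phase p 1 hw
    rw [← hu]
    exact h4 p u
  have h6 : ∀ p : Nat.Primes, GG b p s = 0 := by
    intro p
    set r : ℝ := ((p : ℕ) : ℝ) ^ (-(1 : ℝ)) with hr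
    have hr0 : 0 < r := Real.rpow_pos_of_pos (prime_pos p) _
    have hr2 : r ≤ 1 / 2 := rpow_neg_le_half p le_rfl
    have han : AnalyticOnNhd ℂ (Ph b p) (ball 0 r) :=
      ((Ph_diff hb p).analyticOnNhd isOpen_ball).mono (ball_subset_ball (by linarith))
    have hz : ((p : ℕ) : ℂ) ^ (-s) ∈ ball (0 : ℂ) r := by
      rw [mem_ball_zero_iff, norm_cpow_eq]
      exact Real.rpow_lt_rpow_of_exponent_lt (by exact_mod_cast p.2.one_lt) (by linarith)
    have h00 : (0 : ℂ) ∈ ball (0 : ℂ) r := mem_ball_self hr0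
    rcases han.is_constant_or_isOpen (convex_ball _ _).isPreconnected with ⟨w, hw⟩ | hop
    · rw [GG_eq, hw _ hz, ← hw _ h00, Ph_zero]
    · exfalso
      have h7 := hop (ball 0 r) le_rfl isOpen_ball
      have h8 : (0 : ℂ) ∈ Ph b p '' ball 0 r := ⟨0, h00, Ph_zero b p⟩
      obtain ⟨ε, hε, h9⟩ := Metric.isOpen_iff.1 h7 0 h8
      have h10 : ((ε / 2 : ℝ) : ℂ) ∈ ball (0 : ℂ) ε := by
        rw [mem_ball_zero_iff, Complex.norm_real, Real.norm_of_nonneg (by positivity)]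
        linarith
      obtain ⟨z, hz1, hz2⟩ := h9 h10
      have h11 := h5 p z (mem_ball_zero_iff.1 hz1).le
      rw [hz2, Complex.ofReal_re] at h11
      linarith
  rw [FF_eq_tsum (summable_wt' hb hs)]
  simp only [h6, tsum_zero]

end

end Pool.Agent.N60.EH
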