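import Pool.Agent.N60.EH.Kron

/-!
# The supremum on the edge, II
-/

set_option autoImplicit false

namespace Pool.Agent.N60.EH

open Complex MeasureTheory Finset Filter Topology Metric
open Pool.Agent.TH339.MP
open Pool.Agent.W350.Edge (divSet dimH_divSet)

section
variable {b : PP → ℂ} {M : ℝ}

/-- Kronecker's theorem for the local sums -/
lemma kron (hb : ∀ x, ‖b x‖ ≤ M / (x.2 + 1 : ℕ)) (P : Finset Nat.Primes) (u : Nat.Primes → ℝ)
    {δ : ℝ} (hδ : 0 < δ) : ∃ t : ℝ, ∀ p ∈ P, ∀ σ : ℝ, 1 ≤ σ →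
      ‖GG b p ((σ : ℂ) + t * I) - GG b p ((σ : ℂ) + u p * I)‖ ≤ δ := by
  classical
  have hM := M_nonneg hb
  have hpi := Real.pi_pos
  set N : ℕ := P.sup (fun p => (p : ℕ)) + 1 with hN
  have hN' : ∀ p ∈ P, (p : ℕ) < N := fun p hp =>
    Nat.lt_succ_of_le (Finset.le_sup (f := fun p : Nat.Primes => (p : ℕ)) hp)
  set β : ℕ → ℝ := fun q => if h : q.Prime then u ⟨q, h⟩ * Real.log q / (2 * Real.pi) else 0
    with hβ
  set ε : ℝ := δ / (2 * Real.pi * (M + 1)) with hε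
  have hε0 : 0 < ε := by positivity
  obtain ⟨t, -, ht⟩ := Pool.Agent.W755.Haight.phases N β ε hε0 0
  refine ⟨2 * Real.pi * t, fun p hp σ hσ => ?_⟩
  obtain ⟨n, hn⟩ := ht p p.2 (hN' p hp)
  have hβp : β p = u p * Real.log (p : ℕ) / (2 * Real.pi) := by
    simp only [hβ]
    rw [dif_pos p.2]
    rfl
  have h1 := GG_lip hb p hσ (t := 2 * Real.pi * t) (u := u p) (n := n) (η := 2 * Real.pi * ε) (by
    have h2 : 2 * Real.pi * t * Real.log (p : ℕ) - u p * Real.log (p : ℕ) - 2 * Real.pi * n =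
        2 * Real.pi * (t * Real.log (p : ℕ) - β p - n) := by
      rw [hβp]
      field_simp
    rw [h2, abs_mul, abs_of_pos (by positivity)]
    exact mul_le_mul_of_nonneg_left hn.le (by positivity))
  push_cast at h1 ⊢
  refine h1.trans ?_
  have h3 : 2 * Real.pi * ε = δ / (M + 1) := by
    rw [hε]
    field_simp
  rw [h3, ← mul_div_assoc, div_le_iff₀ (by linarith)]
  nlinarith

/-- the sizes of the local sums -/
noncomputable def AA (b : PP → ℂ) (σ : ℝ) (p : Nat.Primes) : ℝ := ∑' k : ℕ, ‖b (p, k)‖ * wt σ (p, k)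

lemma norm_GG_le (hb : ∀ x, ‖b x‖ ≤ M / (x.2 + 1 : ℕ)) (p : Nat.Primes) {s : ℂ} (hs : 1 ≤ s.re) :
    ‖GG b p s‖ ≤ AA b s.re p := by
  unfold GG AA
  refine (norm_tsum_le_tsum_norm (summable_GG hb p hs).norm).trans (le_of_eq ?_)
  exact tsum_congr fun k => norm_tm b s (p, k)

lemma FF_eq_tsum {s : ℂ} (hsum : Summable fun x => ‖b x‖ * wt s.re x) :
    FF b s = ∑' p, GG b p s := by
  have h1 : Summable fun x => tm b s x := by
    refine Summable.of_norm ?_
    exact hsum.congr fun x => (norm_tm b s x).symm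
  exact h1.tsum_prod

lemma tail_GG (hb : ∀ x, ‖b x‖ ≤ M / (x.2 + 1 : ℕ)) {σ : ℝ} (hσ : 1 ≤ σ)
    (hsum : Summable fun x => ‖b x‖ * wt σ x) {δ : ℝ} (hδ : 0 < δ) (P0 : Finset Nat.Primes) :
    ∃ P : Finset Nat.Primes, P0 ⊆ P ∧
      ∀ s : ℂ, s.re = σ → ‖FF b s - ∑ p ∈ P, GG b p s‖ ≤ δ := by
  classical
  have hA : Summable fun p => AA b σ p := hsum.prod
  obtain ⟨P1, hP1⟩ := (Metric.tendsto_atTop.1 hA.hasSum) δ hδ
  refine ⟨P0 ∪ P1, Finset.subset_union_left, fun s hs => ?_⟩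
  set P := P0 ∪ P1 with hP
  have h1 := hP1 P Finset.subset_union_right
  have hn : ∀ p, ‖GG b p s‖ ≤ AA b σ p := fun p => by
    have := norm_GG_le hb p (s := s) (by rw [hs]; exact hσ)
    rwa [hs] at this
  have hG : Summable fun p => GG b p s := Summable.of_norm_bounded hA hn
  have h2 : FF b s = ∑' p, GG b p s := FF_eq_tsum (by rw [hs]; exact hsum)
  rw [h2, ← hG.sum_add_tsum_compl (s := P), add_sub_cancel_left]
  have h3 := hA.sum_add_tsum_compl (s := P)
  have hA' : Summable fun p : ↑((P : Set Nat.Primes)ᶜ) => AA b σ p := hA.subtype _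
  have h4 : ‖∑' p : ↑((P : Set Nat.Primes)ᶜ), GG b p s‖ ≤
      ∑' p : ↑((P : Set Nat.Primes)ᶜ), AA b σ p :=
    tsum_of_norm_bounded hA'.hasSum fun p => hn p
  refine h4.trans ?_
  rw [Real.dist_eq] at h1
  have h5 := abs_lt.1 h1
  simp only [] at h5 h3
  linarith [h5.1]

/-- the supremum over a vertical line is at least the sum of the suprema of the local sums -/
lemma sup_le (hb : ∀ x, ‖b x‖ ≤ M / (x.2 + 1 : ℕ)) {σ : ℝ} (hσ : 1 ≤ σ)
    (hsum : Summable fun x => ‖b x‖ * wt σ x) {B : ℝ}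
    (hB : ∀ t : ℝ, (FF b ((σ : ℂ) + t * I)).re ≤ B) (P : Finset Nat.Primes)
    (u : Nat.Primes → ℝ) : ∑ p ∈ P, (GG b p ((σ : ℂ) + u p * I)).re ≤ B := by
  classical
  refine le_of_forall_pos_le_add fun ε hε => ?_
  have hre : ∀ t : ℝ, ((σ : ℂ) + t * I).re = σ := by
    intro t
    simp
  obtain ⟨P', hPP', hP'⟩ := tail_GG hb hσ hsum (δ := ε / 4) (by positivity) P
  set n : ℝ := (P'.card : ℝ) + 1 with hn
  have hn0 : 0 < n := by positivity
  have hex : ∀ p, ∃ v : ℝ, -(ε / (4 * n)) ≤ (GG b p ((σ : ℂ) + v * I)).re := by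
    intro p
    obtain ⟨v, hv⟩ := GG_max hb p hσ (z := 0) (by
      rw [norm_zero]
      exact (Real.rpow_pos_of_pos (prime_pos p) _).le) (δ := ε / (4 * n)) (by positivity)
    rw [Ph_zero, Complex.zero_re, zero_sub] at hv
    exact ⟨v, hv⟩
  choose v hv using hex
  set w : Nat.Primes → ℝ := fun p => if p ∈ P then u p else v p with hw
  obtain ⟨t, ht⟩ := kron hb P' w (δ := ε / (4 * n)) (by positivity)
  have h1 := hP' _ (hre t)
  have h2 := hB t
  have h3 : (∑ p ∈ P', GG b p ((σ : ℂ) + t * I)).re ≤ B + ε / 4 := by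
    have h4 := (Complex.abs_re_le_norm _).trans h1
    rw [Complex.sub_re] at h4
    linarith [(abs_le.1 h4).1]
  rw [Complex.re_sum] at h3
  have h4 : ∀ p ∈ P', (GG b p ((σ : ℂ) + w p * I)).re - ε / (4 * n) ≤
      (GG b p ((σ : ℂ) + t * I)).re := by
    intro p hp
    have h5 := (Complex.abs_re_le_norm _).trans (ht p hp σ hσ)
    rw [Complex.sub_re] at h5
    linarith [(abs_le.1 h5).1]
  have h5 := Finset.sum_le_sum h4
  rw [Finset.sum_sub_distrib, Finset.sum_const, nsmul_eq_mul] at h5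
  have h6 : (P'.card : ℝ) * (ε / (4 * n)) ≤ ε / 4 := by
    have h7 : n * (ε / (4 * n)) = ε / 4 := by field_simp
    rw [← h7]
    refine mul_le_mul_of_nonneg_right ?_ (by positivity)
    rw [hn]
    linarith
  have h8 : ∑ p ∈ P, (GG b p ((σ : ℂ) + u p * I)).re - ε / 4 ≤
      ∑ p ∈ P', (GG b p ((σ : ℂ) + w p * I)).re := by
    rw [← Finset.sum_sdiff hPP']
    have h9 : ∑ p ∈ P, (GG b p ((σ : ℂ) + w p * I)).re =
        ∑ p ∈ P, (GG b p ((σ : ℂ) + u p * I)).re := by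
      refine Finset.sum_congr rfl fun p hp => ?_
      simp only [hw]
      rw [if_pos hp]
    have h10 : -(ε / 4) ≤ ∑ p ∈ P' \ P, (GG b p ((σ : ℂ) + w p * I)).re := by
      have h11 : ∑ _p ∈ P' \ P, -(ε / (4 * n)) ≤
          ∑ p ∈ P' \ P, (GG b p ((σ : ℂ) + w p * I)).re := by
        refine Finset.sum_le_sum fun p hp => ?_
        simp only [hw]
        rw [if_neg (Finset.mem_sdiff.1 hp).2]
        exact hv p
      refine le_trans ?_ h11
      rw [Finset.sum_const, nsmul_eq_mul, mul_neg]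
      refine neg_le_neg (le_trans ?_ h6)
      refine mul_le_mul_of_nonneg_right ?_ (by positivity)
      exact_mod_cast Finset.card_le_card Finset.sdiff_subset
    rw [h9]
    linarith
  linarith

end

end Pool.Agent.N60.EH
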